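import Pool.Agent.K7.H4.BD.Basic

set_option autoImplicit false

/-! # The permutations which avoid `132` and `231` -/

namespace Pool.Agent.K7.H4.BD

/-! ### lists -/

theorem sub3_cons {a b c m : ℕ} {l : List ℕ} (h : [a, b, c].Sublist (m :: l)) :
    [a, b, c].Sublist l ∨ (a = m ∧ [b, c].Sublist l) := by
  cases h with
  | cons _ h => exact Or.inl h
  | cons_cons _ h => exact Or.inr ⟨rfl, h⟩

theorem sub3_append {a b c m : ℕ} {l : List ℕ} (h : [a, b, c].Sublist (l ++ [m])) :
    [a, b, c].Sublist l ∨ (c = m ∧ [a, b].Sublist l) := by
  have h1 : [c, b, a].Sublist (m :: l.reverse) := by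
    have := h.reverse
    simpa using this
  cases h1 with
  | cons _ h => left; have := h.reverse; simpa using this
  | cons_cons _ h => right; refine ⟨rfl, ?_⟩; have := h.reverse; simpa using this

theorem perm_cons_range {n : ℕ} {l : List ℕ} :
    (n :: l).Perm (List.range (n + 1)) ↔ l.Perm (List.range n) := by
  rw [List.range_succ]
  constructor
  · intro h
    exact (h.trans (List.perm_append_singleton n _)).cons_inv
  · intro h
    exact (h.cons n).trans (List.perm_append_singleton n _).symm

theorem perm_append_range {n : ℕ} {l : List ℕ} :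
    (l ++ [n]).Perm (List.range (n + 1)) ↔ l.Perm (List.range n) := by
  refine Iff.trans ?_ perm_cons_range
  exact ⟨fun h => (List.perm_append_singleton n l).symm.trans h,
    fun h => (List.perm_append_singleton n l).trans h⟩

theorem bdes_cons {m x : ℕ} {t : List ℕ} :
    bdes (m :: x :: t) = (if x + 1 < m then 1 else 0) + bdes (x :: t) := rfl

theorem bdes_append {m : ℕ} {l : List ℕ} (h : ∀ x ∈ l, x < m) : bdes (l ++ [m]) = bdes l := by
  induction l with
  | nil => rfl
  | cons x l ih =>
    cases l with
    | nil =>
      have := h x (by simp)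
      show (if m + 1 < x then 1 else 0) + bdes [m] = bdes [x]
      rw [if_neg (by omega)]
      rfl
    | cons y t =>
      have h1 := ih (fun z hz => h z (List.mem_cons_of_mem _ hz))
      show (if y + 1 < x then 1 else 0) + bdes ((y :: t) ++ [m]) = _
      rw [h1]
      rfl

/-! ### the explicit list -/

def W : ℕ → List (List ℕ)
  | 0 => [[0]]
  | n + 1 => (W n).map (fun l => (n + 1) :: l) ++ (W n).map (fun l => l ++ [n + 1])

theorem mem_W (n : ℕ) (l : List ℕ) :
    l ∈ W n ↔ l.Perm (List.range (n + 1)) ∧ (Av132 l ∧ Av231 l) := by
  induction n generalizing l with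
  | zero =>
    show l ∈ [[0]] ↔ _
    rw [List.mem_singleton, show List.range (0 + 1) = [0] from rfl, List.perm_singleton]
    constructor
    · rintro rfl
      refine ⟨rfl, fun a b c h => ?_, fun a b c h => ?_⟩ <;>
      · have := h.length_le
        simp at this
    · exact fun h => h.1
  | succ n ih =>
    show l ∈ (W n).map (fun l => (n + 1) :: l) ++ (W n).map (fun l => l ++ [n + 1]) ↔ _
    rw [List.mem_append, List.mem_map, List.mem_map]
    constructor
    · rintro (⟨l', h, rfl⟩ | ⟨l', h, rfl⟩)
      · obtain ⟨h1, h2, h3⟩ := (ih l').1 h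
        have hlt : ∀ x ∈ l', x < n + 1 := fun x hx => List.mem_range.1 (h1.mem_iff.1 hx)
        refine ⟨perm_cons_range.2 h1, fun a b c hs => ?_, fun a b c hs => ?_⟩
        · rcases sub3_cons hs with hs | ⟨e, hs'⟩
          · exact h2 a b c hs
          · have := hlt c (hs'.subset (by simp))
            omega
        · rcases sub3_cons hs with hs | ⟨e, hs'⟩
          · exact h3 a b c hs
          · have := hlt b (hs'.subset (by simp))
            omega
      · obtain ⟨h1, h2, h3⟩ := (ih l').1 h
        have hlt : ∀ x ∈ l', x < n + 1 := fun x hx => List.mem_range.1 (h1.mem_iff.1 hx)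
        refine ⟨perm_append_range.2 h1, fun a b c hs => ?_, fun a b c hs => ?_⟩
        · rcases sub3_append hs with hs | ⟨e, hs'⟩
          · exact h2 a b c hs
          · have := hlt b (hs'.subset (by simp))
            omega
        · rcases sub3_append hs with hs | ⟨e, hs'⟩
          · exact h3 a b c hs
          · have := hlt a (hs'.subset (by simp))
            omega
    · rintro ⟨h1, h2, h3⟩
      have hmem : n + 1 ∈ l := h1.mem_iff.2 (List.mem_range.2 (by omega))
      obtain ⟨p, q, rfl⟩ := List.append_of_mem hmem
      have hnd : (p ++ (n + 1) :: q).Nodup := h1.nodup_iff.2 (List.nodup_range)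
      have hlt : ∀ x ∈ p ++ (n + 1) :: q, x < n + 2 := fun x hx =>
        List.mem_range.1 (h1.mem_iff.1 hx)
      rcases List.eq_nil_or_concat' p with rfl | ⟨p', x, rfl⟩
      · left
        refine ⟨q, (ih q).2 ⟨perm_cons_range.1 h1, fun a b c hs => h2 a b c ?_,
          fun a b c hs => h3 a b c ?_⟩, rfl⟩ <;>
        exact hs.trans (List.sublist_cons_self _ _)
      · cases q with
        | nil =>
          right
          have hs' : (p' ++ [x]).Sublist ((p' ++ [x]) ++ [n + 1]) := List.sublist_append_left _ _
          exact ⟨p' ++ [x], (ih _).2 ⟨perm_append_range.1 h1, fun a b c hs => h2 a b c (hs.trans hs'),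
            fun a b c hs => h3 a b c (hs.trans hs')⟩, rfl⟩
        | cons y q' =>
          exfalso
          have hsub : [x, n + 1, y].Sublist (p' ++ [x] ++ (n + 1) :: y :: q') := by
            have e1 : [x].Sublist (p' ++ [x]) := List.sublist_append_right _ _
            have e2 : [n + 1, y].Sublist ((n + 1) :: y :: q') :=
              (List.Sublist.cons_cons _ (List.Sublist.cons_cons _ (List.nil_sublist _)))
            exact e1.append e2
          have hx : x < n + 2 := hlt x (by simp)
          have hy : y < n + 2 := hlt y (by simp)
          have hnd' := hsub.nodup hnd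
          simp only [List.nodup_cons, List.mem_cons, List.not_mem_nil, or_false, not_or,
            List.nodup_nil, and_true, not_false_eq_true] at hnd'
          have a1 := h2 x (n + 1) y hsub
          have a2 := h3 x (n + 1) y hsub
          omega

theorem W_nodup (n : ℕ) : (W n).Nodup := by
  induction n with
  | zero => simp [W]
  | succ n ih =>
    show ((W n).map (fun l => (n + 1) :: l) ++ (W n).map (fun l => l ++ [n + 1])).Nodup
    rw [List.nodup_append]
    refine ⟨ih.map fun a b h => (List.cons_inj_right _).1 h,
      ih.map fun a b h => List.append_cancel_right h, ?_⟩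
    intro a ha b hb e
    obtain ⟨l, hl, rfl⟩ := List.mem_map.1 ha
    obtain ⟨l', hl', rfl⟩ := List.mem_map.1 hb
    have h1 := ((mem_W n l').1 hl').1
    cases l' with
    | nil =>
      have := h1.length_eq
      simp at this
    | cons x t =>
      have h2 : n + 1 = x := by
        have := congrArg List.head? e
        simpa using this
      have h3 : x < n + 1 := List.mem_range.1 (h1.mem_iff.1 (by simp))
      omega

/-! ### the numbers -/

theorem countP_split {α : Type} (l : List α) (p q : α → Bool) :
    l.countP p = l.countP (fun x => p x && q x) + l.countP (fun x => p x && !q x) := by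
  induction l with
  | nil => rfl
  | cons a l ih =>
    rw [List.countP_cons, List.countP_cons, List.countP_cons, ih]
    cases p a <;> cases q a <;> simp <;> omega

def hd (n : ℕ) (l : List ℕ) : Bool := decide (l.head? = some n)

def f (n k : ℕ) : ℕ := (W n).countP fun l => decide (bdes l = k) && hd n l

def g (n k : ℕ) : ℕ := (W n).countP fun l => decide (bdes l = k) && !hd n l

theorem bdes_top {n : ℕ} {l : List ℕ} (h : l ∈ W n) :
    bdes ((n + 1) :: l) = (if hd n l then 0 else 1) + bdes l := by
  have h1 := ((mem_W n l).1 h).1
  cases l with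
  | nil =>
    have := h1.length_eq
    simp at this
  | cons x t =>
    have h3 : x < n + 1 := List.mem_range.1 (h1.mem_iff.1 (by simp))
    rw [bdes_cons]
    congr 1
    unfold hd
    by_cases hx : x = n
    · rw [if_neg (by omega), if_pos (by simp [hx])]
    · rw [if_pos (by omega), if_neg (by simp [hx])]

theorem f_succ (n k : ℕ) : f (n + 1) k =
    (W n).countP (fun l => decide (bdes ((n + 1) :: l) = k)) := by
  unfold f
  show List.countP _ ((W n).map (fun l => (n + 1) :: l) ++ (W n).map (fun l => l ++ [n + 1])) = _
  rw [List.countP_append, List.countP_map, List.countP_map]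
  have h1 : (W n).countP ((fun l => decide (bdes l = k) && hd (n + 1) l) ∘ fun l => l ++ [n + 1]) = 0 := by
    rw [List.countP_eq_zero]
    intro l hl
    have h1 := ((mem_W n l).1 hl).1
    cases l with
    | nil =>
      have := h1.length_eq
      simp at this
    | cons x t =>
      have h3 : x < n + 1 := List.mem_range.1 (h1.mem_iff.1 (by simp))
      simp only [Function.comp, hd, List.cons_append, List.head?_cons, Option.some.injEq,
        Bool.and_eq_true, decide_eq_true_eq, not_and]
      omega
  rw [h1, add_zero]
  refine List.countP_congr fun l _ => ?_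
  simp [hd]

theorem g_succ (n k : ℕ) : g (n + 1) k = f n k + g n k := by
  have h0 : f n k + g n k = (W n).countP (fun l => decide (bdes l = k)) :=
    (countP_split (W n) (fun l => decide (bdes l = k)) (hd n)).symm
  rw [h0]
  unfold g
  show List.countP _ ((W n).map (fun l => (n + 1) :: l) ++ (W n).map (fun l => l ++ [n + 1])) = _
  rw [List.countP_append, List.countP_map, List.countP_map]
  have h1 : (W n).countP ((fun l => decide (bdes l = k) && !hd (n + 1) l) ∘ fun l => (n + 1) :: l) = 0 := by
    rw [List.countP_eq_zero]
    intro l hl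
    simp [hd]
  rw [h1, zero_add]
  refine List.countP_congr fun l hl => ?_
  have h1 := ((mem_W n l).1 hl).1
  have hlt : ∀ x ∈ l, x < n + 1 := fun x hx => List.mem_range.1 (h1.mem_iff.1 hx)
  have h2 : hd (n + 1) (l ++ [n + 1]) = false := by
    cases l with
    | nil =>
      have := h1.length_eq
      simp at this
    | cons x t =>
      have h3 := hlt x (by simp)
      simp only [hd, List.cons_append, List.head?_cons, Option.some.injEq, decide_eq_false_iff_not]
      omega
  simp only [Function.comp, h2, bdes_append hlt, Bool.not_false, Bool.and_true]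

theorem f_succ_zero (n : ℕ) : f (n + 1) 0 = f n 0 := by
  rw [f_succ]
  unfold f
  refine List.countP_congr fun l hl => ?_
  rw [bdes_top hl]
  cases hd n l <;> simp

theorem f_succ_succ (n k : ℕ) : f (n + 1) (k + 1) = f n (k + 1) + g n k := by
  rw [f_succ, countP_split (W n) _ (hd n)]
  unfold f g
  congr 1
  · refine List.countP_congr fun l hl => ?_
    rw [bdes_top hl]
    cases hd n l <;> simp
  · refine List.countP_congr fun l hl => ?_
    rw [bdes_top hl]
    cases hd n l
    · simp; omega
    · simp

theorem fg (n : ℕ) : ∀ k, f n k = n.choose (2 * k) ∧ g n k = n.choose (2 * k + 1) := by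
  induction n with
  | zero =>
    intro k
    cases k with
    | zero => exact ⟨by decide, by decide⟩
    | succ k =>
      refine ⟨?_, ?_⟩
      · rw [Nat.choose_eq_zero_of_lt (by omega)]
        simp [f, W, bdes]
      · rw [Nat.choose_eq_zero_of_lt (by omega)]
        simp [g, W, bdes]
  | succ n ih =>
    intro k
    refine ⟨?_, ?_⟩
    · cases k with
      | zero => rw [f_succ_zero, (ih 0).1]; simp
      | succ k =>
        rw [f_succ_succ, (ih (k + 1)).1, (ih k).2, show 2 * (k + 1) = (2 * k + 1) + 1 by ring,
          Nat.choose_succ_succ, add_comm]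
    · rw [g_succ, (ih k).1, (ih k).2, Nat.choose_succ_succ]

theorem cnt_A (n k : ℕ) : cnt (fun l => Av132 l ∧ Av231 l) (n + 1) k = (n + 1).choose (2 * k + 1) := by
  rw [ncard_eq_countP (W n) (W_nodup n) (mem_W n), countP_split (W n) _ (hd n)]
  show f n k + g n k = _
  rw [(fg n k).1, (fg n k).2, Nat.choose_succ_succ]

end Pool.Agent.K7.H4.BD
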