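import Pool.Agent.K7.H4.BD.A

set_option autoImplicit false

/-! # The permutations which avoid `132` and `312` -/

namespace Pool.Agent.K7.H4.BD

theorem perm_zero_range {n : ℕ} {l : List ℕ} :
    (l.map Nat.succ ++ [0]).Perm (List.range (n + 1)) ↔ l.Perm (List.range n) := by
  rw [List.range_succ_eq_map]
  constructor
  · intro h
    have h1 := ((List.perm_append_singleton 0 (l.map Nat.succ)).symm.trans h).cons_inv
    have h2 := h1.map Nat.pred
    simpa [List.map_map, Function.comp_def] using h2
  · intro h
    exact (List.perm_append_singleton 0 _).trans ((h.map Nat.succ).cons 0)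

theorem last_cons (x y : ℕ) (t : List ℕ) : (x :: y :: t).getLast? = (y :: t).getLast? := by
  simp [List.getLast?_cons_cons]

theorem bdes_zero {l : List ℕ} (h : l ≠ []) :
    bdes (l.map Nat.succ ++ [0]) = (if l.getLast? = some 0 then 0 else 1) + bdes l := by
  induction l with
  | nil => exact absurd rfl h
  | cons x l ih =>
    cases l with
    | nil =>
      show (if 0 + 1 < x + 1 then 1 else 0) + bdes [0] = _
      by_cases hx : x = 0
      · rw [if_neg (by omega), if_pos (by simp [hx])]
        rfl
      · rw [if_pos (by omega), if_neg (by simp [hx])]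
        rfl
    | cons y t =>
      have h1 := ih (by simp)
      rw [last_cons]
      show (if y + 1 + 1 < x + 1 then 1 else 0) + bdes ((y :: t).map Nat.succ ++ [0]) = _
      rw [h1, bdes_cons]
      by_cases h2 : y + 1 < x
      · rw [if_pos (show y + 1 + 1 < x + 1 by omega), if_pos h2]; omega
      · rw [if_neg (show ¬ y + 1 + 1 < x + 1 by omega), if_neg h2]; omega

def V : ℕ → List (List ℕ)
  | 0 => [[0]]
  | n + 1 => (V n).map (fun l => l.map Nat.succ ++ [0]) ++ (V n).map (fun l => l ++ [n + 1])

theorem mem_V (n : ℕ) (l : List ℕ) :
    l ∈ V n ↔ l.Perm (List.range (n + 1)) ∧ (Av132 l ∧ Av312 l) := by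
  induction n generalizing l with
  | zero =>
    show l ∈ [[0]] ↔ _
    rw [List.mem_singleton, show List.range (0 + 1) = [0] from rfl, List.perm_singleton]
    constructor
    · rintro rfl
      refine ⟨rfl, fun a b c h => ?_, fun a b c h => ?_⟩ <;>
      · have := h.length_le
        simp at this
    · exact fun h => h.1
  | succ n ih =>
    show l ∈ (V n).map (fun l => l.map Nat.succ ++ [0]) ++ (V n).map (fun l => l ++ [n + 1]) ↔ _
    rw [List.mem_append, List.mem_map, List.mem_map]
    constructor
    · rintro (⟨l', h, rfl⟩ | ⟨l', h, rfl⟩)
      · obtain ⟨h1, h2, h3⟩ := (ih l').1 h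
        have key : ∀ a b c, [a, b, c].Sublist (l'.map Nat.succ) →
            ∃ a' b' c', [a', b', c'].Sublist l' ∧ a = a' + 1 ∧ b = b' + 1 ∧ c = c' + 1 := by
          intro a b c hs
          obtain ⟨s, hs1, hs2⟩ := List.sublist_map_iff.1 hs
          match s, hs1, hs2 with
          | [a', b', c'], hs1, hs2 =>
            simp only [List.map_cons, List.map_nil, List.cons.injEq, and_true] at hs2
            exact ⟨a', b', c', hs1, hs2.1, hs2.2.1, hs2.2.2⟩
        refine ⟨perm_zero_range.2 h1, fun a b c hs => ?_, fun a b c hs => ?_⟩
        · rcases sub3_append hs with hs | ⟨e, hs'⟩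
          · obtain ⟨a', b', c', h4, e1, e2, e3⟩ := key a b c hs
            have := h2 a' b' c' h4
            omega
          · omega
        · rcases sub3_append hs with hs | ⟨e, hs'⟩
          · obtain ⟨a', b', c', h4, e1, e2, e3⟩ := key a b c hs
            have := h3 a' b' c' h4
            omega
          · omega
      · obtain ⟨h1, h2, h3⟩ := (ih l').1 h
        have hlt : ∀ x ∈ l', x < n + 1 := fun x hx => List.mem_range.1 (h1.mem_iff.1 hx)
        refine ⟨perm_append_range.2 h1, fun a b c hs => ?_, fun a b c hs => ?_⟩
        · rcases sub3_append hs with hs | ⟨e, hs'⟩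
          · exact h2 a b c hs
          · have := hlt b (hs'.subset (by simp))
            omega
        · rcases sub3_append hs with hs | ⟨e, hs'⟩
          · exact h3 a b c hs
          · have := hlt a (hs'.subset (by simp))
            omega
    · rintro ⟨h1, h2, h3⟩
      rcases List.eq_nil_or_concat' l with rfl | ⟨p, v, rfl⟩
      · have := h1.length_eq
        simp at this
      have hnd : (p ++ [v]).Nodup := h1.nodup_iff.2 (List.nodup_range)
      have hv : v < n + 2 := List.mem_range.1 (h1.mem_iff.1 (by simp))
      have hps : p.Sublist (p ++ [v]) := List.sublist_append_left _ _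
      by_cases e1 : v = n + 1
      · right
        subst e1
        exact ⟨p, (ih p).2 ⟨perm_append_range.1 h1, fun a b c hs => h2 a b c (hs.trans hps),
          fun a b c hs => h3 a b c (hs.trans hps)⟩, rfl⟩
      · by_cases e2 : v = 0
        · left
          subst e2
          have hp0 : 0 ∉ p := by
            intro h
            have := (List.nodup_append.1 hnd).2.2 0 h 0 (by simp)
            exact this rfl
          have hp : p = (p.map Nat.pred).map Nat.succ := by
            rw [List.map_map]
            conv_lhs => rw [← List.map_id p]
            refine List.map_congr_left fun x hx => ?_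
            have : x ≠ 0 := fun h => hp0 (h ▸ hx)
            show x = Nat.succ (Nat.pred x)
            exact (Nat.succ_pred_eq_of_ne_zero this).symm
          have hsub : ∀ a b c, [a, b, c].Sublist (p.map Nat.pred) →
              [a + 1, b + 1, c + 1].Sublist (p ++ [0]) := by
            intro a b c hs
            have h4 := hs.map Nat.succ
            rw [← hp] at h4
            exact h4.trans hps
          refine ⟨p.map Nat.pred, (ih _).2 ⟨?_, fun a b c hs => ?_, fun a b c hs => ?_⟩, ?_⟩
          · rw [hp] at h1
            exact perm_zero_range.1 h1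
          · have := h2 _ _ _ (hsub a b c hs)
            omega
          · have := h3 _ _ _ (hsub a b c hs)
            omega
          · rw [← hp]
        · exfalso
          have m0 : 0 ∈ p := by
            have : (0 : ℕ) ∈ p ++ [v] := h1.mem_iff.2 (List.mem_range.2 (by omega))
            rw [List.mem_append, List.mem_singleton] at this
            rcases this with h | h
            · exact h
            · exact absurd h.symm e2
          have mn : n + 1 ∈ p := by
            have : n + 1 ∈ p ++ [v] := h1.mem_iff.2 (List.mem_range.2 (by omega))
            rw [List.mem_append, List.mem_singleton] at this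
            rcases this with h | h
            · exact h
            · exact absurd h.symm e1
          obtain ⟨r, s, rfl⟩ := List.append_of_mem m0
          rw [List.mem_append, List.mem_cons] at mn
          rcases mn with h | h | h
          · have h4 : [n + 1, 0, v].Sublist (r ++ 0 :: s ++ [v]) := by
              have e3 : [n + 1].Sublist r := List.singleton_sublist.2 h
              have e4 : [0].Sublist (0 :: s) := List.singleton_sublist.2 (by simp)
              exact (e3.append e4).append (List.Sublist.refl [v])
            have := h3 _ _ _ h4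
            omega
          · omega
          · have h4 : [0, n + 1, v].Sublist (r ++ 0 :: s ++ [v]) := by
              have e3 : [n + 1].Sublist s := List.singleton_sublist.2 h
              have e4 : [0, n + 1].Sublist (r ++ 0 :: s) :=
                (e3.cons_cons 0).trans (List.sublist_append_right _ _)
              exact e4.append (List.Sublist.refl [v])
            have := h2 _ _ _ h4
            omega

theorem V_nodup (n : ℕ) : (V n).Nodup := by
  induction n with
  | zero => simp [V]
  | succ n ih =>
    show ((V n).map (fun l => l.map Nat.succ ++ [0]) ++ (V n).map (fun l => l ++ [n + 1])).Nodup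
    rw [List.nodup_append]
    refine ⟨ih.map fun a b h => List.map_injective_iff.2 Nat.succ_injective (List.append_cancel_right h),
      ih.map fun a b h => List.append_cancel_right h, ?_⟩
    intro a ha b hb e
    obtain ⟨l, hl, rfl⟩ := List.mem_map.1 ha
    obtain ⟨l', hl', rfl⟩ := List.mem_map.1 hb
    have := congrArg List.getLast? e
    simp at this

def ls (l : List ℕ) : Bool := decide (l.getLast? = some 0)

def f' (n k : ℕ) : ℕ := (V n).countP fun l => decide (bdes l = k) && ls l

def g' (n k : ℕ) : ℕ := (V n).countP fun l => decide (bdes l = k) && !ls l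

theorem V_ne {n : ℕ} {l : List ℕ} (h : l ∈ V n) : l ≠ [] := by
  rintro rfl
  have h1 := ((mem_V n []).1 h).1
  have := h1.length_eq
  simp at this

theorem f'_succ (n k : ℕ) : f' (n + 1) k =
    (V n).countP (fun l => decide ((if ls l then 0 else 1) + bdes l = k)) := by
  unfold f'
  show List.countP _ ((V n).map (fun l => l.map Nat.succ ++ [0]) ++ (V n).map (fun l => l ++ [n + 1])) = _
  rw [List.countP_append, List.countP_map, List.countP_map]
  have h1 : (V n).countP ((fun l => decide (bdes l = k) && ls l) ∘ fun l => l ++ [n + 1]) = 0 := by
    rw [List.countP_eq_zero]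
    intro l hl
    simp [ls]
  rw [h1, add_zero]
  refine List.countP_congr fun l hl => ?_
  have h2 := bdes_zero (V_ne hl)
  have h3 : ls (l.map Nat.succ ++ [0]) = true := by simp [ls]
  simp only [Function.comp, h2, h3, Bool.and_true]
  simp only [ls, decide_eq_true_eq]

theorem g'_succ (n k : ℕ) : g' (n + 1) k = f' n k + g' n k := by
  have h0 : f' n k + g' n k = (V n).countP (fun l => decide (bdes l = k)) :=
    (countP_split (V n) (fun l => decide (bdes l = k)) ls).symm
  rw [h0]
  unfold g'
  show List.countP _ ((V n).map (fun l => l.map Nat.succ ++ [0]) ++ (V n).map (fun l => l ++ [n + 1])) = _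
  rw [List.countP_append, List.countP_map, List.countP_map]
  have h1 : (V n).countP ((fun l => decide (bdes l = k) && !ls l) ∘ fun l => l.map Nat.succ ++ [0]) = 0 := by
    rw [List.countP_eq_zero]
    intro l hl
    simp [ls]
  rw [h1, zero_add]
  refine List.countP_congr fun l hl => ?_
  have h1 := ((mem_V n l).1 hl).1
  have hlt : ∀ x ∈ l, x < n + 1 := fun x hx => List.mem_range.1 (h1.mem_iff.1 hx)
  have h2 : ls (l ++ [n + 1]) = false := by simp [ls]
  simp only [Function.comp, h2, bdes_append hlt, Bool.not_false, Bool.and_true]

theorem f'_succ_zero (n : ℕ) : f' (n + 1) 0 = f' n 0 := by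
  rw [f'_succ]
  unfold f'
  refine List.countP_congr fun l hl => ?_
  cases ls l <;> simp

theorem f'_succ_succ (n k : ℕ) : f' (n + 1) (k + 1) = f' n (k + 1) + g' n k := by
  rw [f'_succ, countP_split (V n) _ ls]
  unfold f' g'
  congr 1
  · refine List.countP_congr fun l hl => ?_
    cases ls l <;> simp
  · refine List.countP_congr fun l hl => ?_
    cases ls l
    · simp; omega
    · simp

theorem fg' (n : ℕ) : ∀ k, f' n k = n.choose (2 * k) ∧ g' n k = n.choose (2 * k + 1) := by
  induction n with
  | zero =>
    intro k
    cases k with
    | zero => exact ⟨by decide, by decide⟩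
    | succ k =>
      refine ⟨?_, ?_⟩
      · rw [Nat.choose_eq_zero_of_lt (by omega)]
        simp [f', V, bdes]
      · rw [Nat.choose_eq_zero_of_lt (by omega)]
        simp [g', V, bdes]
  | succ n ih =>
    intro k
    refine ⟨?_, ?_⟩
    · cases k with
      | zero => rw [f'_succ_zero, (ih 0).1]; simp
      | succ k =>
        rw [f'_succ_succ, (ih (k + 1)).1, (ih k).2, show 2 * (k + 1) = (2 * k + 1) + 1 by ring,
          Nat.choose_succ_succ, add_comm]
    · rw [g'_succ, (ih k).1, (ih k).2, Nat.choose_succ_succ]

theorem cnt_B (n k : ℕ) : cnt (fun l => Av132 l ∧ Av312 l) (n + 1) k = (n + 1).choose (2 * k + 1) := by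
  rw [ncard_eq_countP (V n) (V_nodup n) (mem_V n), countP_split (V n) _ ls]
  show f' n k + g' n k = _
  rw [(fg' n k).1, (fg' n k).2, Nat.choose_succ_succ]

end Pool.Agent.K7.H4.BD
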