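import Mathlib

set_option autoImplicit false

/-!
# Big descents of permutations avoiding two patterns of length three

A permutation of `{0, ..., n - 1}` is a list `l` which is a rearrangement of `List.range n`.
-/

namespace Pool.Agent.K7.H4.BD

/-- the number of big descents: neighbours `a, b` with `a > b + 1` -/
def bdes : List ℕ → ℕ
  | [] => 0
  | [_] => 0
  | a :: b :: t => (if b + 1 < a then 1 else 0) + bdes (b :: t)

/-- `l` avoids `132`: there is no subsequence `a, b, c` with `a < c < b` -/
def Av132 (l : List ℕ) : Prop := ∀ a b c, [a, b, c].Sublist l → ¬ (a < c ∧ c < b)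

/-- `l` avoids `231`: there is no subsequence `a, b, c` with `c < a < b` -/
def Av231 (l : List ℕ) : Prop := ∀ a b c, [a, b, c].Sublist l → ¬ (c < a ∧ a < b)

/-- `l` avoids `312`: there is no subsequence `a, b, c` with `b < c < a` -/
def Av312 (l : List ℕ) : Prop := ∀ a b c, [a, b, c].Sublist l → ¬ (b < c ∧ c < a)

/-- the number of the permutations of `{0, ..., n - 1}` with the property `Av` and with `k` big descents -/
noncomputable def cnt (Av : List ℕ → Prop) (n k : ℕ) : ℕ :=
  {l : List ℕ | l.Perm (List.range n) ∧ Av l ∧ bdes l = k}.ncard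

/-! ### counting in an explicit list -/

theorem ncard_eq_countP {Av : List ℕ → Prop} {n k : ℕ} (W : List (List ℕ)) (hW : W.Nodup)
    (hm : ∀ l, l ∈ W ↔ l.Perm (List.range n) ∧ Av l) :
    cnt Av n k = W.countP (fun l => decide (bdes l = k)) := by
  have h : {l : List ℕ | l.Perm (List.range n) ∧ Av l ∧ bdes l = k} =
      ((W.filter fun l => decide (bdes l = k)).toFinset : Set (List ℕ)) := by
    ext l
    simp only [Set.mem_setOf_eq, List.coe_toFinset, List.mem_filter, decide_eq_true_eq]
    rw [hm l, and_assoc]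
  unfold cnt
  rw [h, Set.ncard_coe_finset, List.toFinset_card_of_nodup (hW.filter _), List.countP_eq_length_filter]

theorem choose_lc (n j : ℕ) : n.choose j * n.choose (j + 2) ≤ n.choose (j + 1) ^ 2 := by
  rcases Nat.lt_or_ge n (j + 2) with h | h
  · rw [Nat.choose_eq_zero_of_lt h, mul_zero]
    exact Nat.zero_le _
  · have h1 := Nat.choose_succ_right_eq n j
    have h2 := Nat.choose_succ_right_eq n (j + 1)
    obtain ⟨d, rfl⟩ := Nat.exists_eq_add_of_le h
    have e1 : j + 2 + d - j = d + 2 := by omega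
    have e2 : j + 2 + d - (j + 1) = d + 1 := by omega
    rw [e1] at h1
    rw [e2] at h2
    set a := (j + 2 + d).choose j
    set b := (j + 2 + d).choose (j + 1)
    set c := (j + 2 + d).choose (j + 2)
    -- b (j+1) = a (d+2), c (j+2) = b (d+1)
    have h3 : a * c * ((d + 2) * (j + 2)) = b ^ 2 * ((j + 1) * (d + 1)) := by
      have : a * (d + 2) * (c * (j + 1 + 1)) = b * (j + 1) * (b * (d + 1)) := by rw [← h1, h2]
      nlinarith [this]
    have h4 : b ^ 2 * ((j + 1) * (d + 1)) ≤ b ^ 2 * ((d + 2) * (j + 2)) := by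
      refine Nat.mul_le_mul_left _ ?_
      nlinarith
    have h5 : a * c * ((d + 2) * (j + 2)) ≤ b ^ 2 * ((d + 2) * (j + 2)) := h3 ▸ h4
    exact Nat.le_of_mul_le_mul_right h5 (by positivity)

theorem choose_lc2 (n j : ℕ) : n.choose j * n.choose (j + 4) ≤ n.choose (j + 2) ^ 2 := by
  have h1 := choose_lc n j
  have h2 := choose_lc n (j + 1)
  have h3 := choose_lc n (j + 2)
  have e1 : j + 1 + 2 = j + 3 := by omega
  have e2 : j + 1 + 1 = j + 2 := by omega
  have e3 : j + 2 + 2 = j + 4 := by omega
  have e4 : j + 2 + 1 = j + 3 := by omega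
  rw [e1, e2] at h2
  rw [e3, e4] at h3
  set a := n.choose j
  set b := n.choose (j + 1)
  set c := n.choose (j + 2)
  set d := n.choose (j + 3)
  set e := n.choose (j + 4)
  -- a c ≤ b², b d ≤ c², c e ≤ d²
  rcases Nat.eq_zero_or_pos c with hc | hc
  · have he : e = 0 := by
      have : n < j + 2 := Nat.choose_eq_zero_iff.1 hc
      exact Nat.choose_eq_zero_of_lt (by omega)
    rw [he, mul_zero]
    exact Nat.zero_le _
  · have h4 : (a * c) * (c * e) ≤ b ^ 2 * d ^ 2 := Nat.mul_le_mul h1 h3
    have h5 : (b * d) ^ 2 ≤ (c ^ 2) ^ 2 := Nat.pow_le_pow_left h2 2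
    have h6 : (a * e) * c ^ 2 ≤ c ^ 2 * c ^ 2 := by nlinarith
    exact Nat.le_of_mul_le_mul_right h6 (by positivity)

end Pool.Agent.K7.H4.BD
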